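import Pool.Agent.Lib.MP_5769ea_ag.ExtI

/-!
# MP_5769ea_ag : strong duality fails for the blow-up of `P^n` at `n + 4` very general points,
for every `n ≥ 9`

`P : Fin (n + 4) → Fin (n + 1) → ℂ` are coordinate vectors of `n + 4` points of `P^n` all of whose
coordinates are algebraically independent over `ℚ` (very general points), `X` is the blow-up of
`P^n` at these points.  The cone `𝒞_5` of 5-moving curves of `X` is strictly contained in the dual
of the cone `𝒟_5`.  See `Pool.Agent.Lib.MP_5769ea_ag.Defs` for the definitions.
-/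

namespace Pool.Agent.Results.MP_5769ea_ag.StrongDualityFails

open Pool.Agent.MP5769ea

theorem result : ∀ n : ℕ, 9 ≤ n → ∀ P : Fin (n + 4) → Fin (n + 1) → ℂ,
    AlgebraicIndependent ℚ (fun ij : Fin (n + 4) × Fin (n + 1) => P ij.1 ij.2) →
      movingCone P 5 ⊂ dualCone (divisorCone P 5) :=
  goal_all

end Pool.Agent.Results.MP_5769ea_ag.StrongDualityFails
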